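import Mathlib
import Pool.Agent.V11256.ST.Main

/-!
# `(p + 2)`-star colourability of `K_{1,p+1}`-free `2p`-regular graphs is `NP`-complete

For every `p ≥ 3` the problem `(p + 2)`-STAR COLOURABILITY restricted to `K_{1,p+1}`-free
`2p`-regular graphs is `NP`-complete.

Star colourings with `p + 2` colours of a graph that is a union of triangles, `p` of them at each
vertex, are the coverings of the hypergraph of the cyclically ordered triples of `p + 2` points.
The instances are glued from copies of this hypergraph in which few triangles have been switched;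
a rigidity argument (isoperimetry) shows that the coverings are constant on the copies. The
reduction is from `p`-colourability of graphs.
-/

namespace Pool.Agent.Results.MP_709f11_lc.StarColouringNPComplete

open Pool.Agent.NPC Pool.Agent.V11256.ST

/-- The decision problem `(p + 2)`-STAR COLOURABILITY restricted to `K_{1,p+1}`-free `2p`-regular
graphs. The input `x` consists of a list of vertices and a list of edges of the graph `gr x`. -/
def Problem (p : ℕ) (x : List ℕ × List (ℕ × ℕ)) : Prop :=
  (∀ v, ((gr x).neighborSet v).ncard = 2 * p) ∧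
  IsEmpty (completeBipartiteGraph (Fin 1) (Fin (p + 1)) ↪g gr x) ∧
  ∃ c : {v : ℕ // v ∈ x.1} → Fin (p + 2), IsStar (gr x) c

/-- **Main theorem.** For every `p ≥ 3` the restricted problem is `NP`-complete; moreover every
language in `NP` reduces to it in such a way that all graphs produced are `2p`-regular and
`K_{1,p+1}`-free. -/
theorem result (p : ℕ) (hp : 3 ≤ p) :
    InNPP (Problem p) ∧ NPHardP (Problem p) ∧
    ∀ L : Set (List Bool), InNP L → ∃ f : List Bool → List ℕ × List (ℕ × ℕ),
      PolyTime (fun w => bits (f w)) ∧
      (∀ w v, ((gr (f w)).neighborSet v).ncard = 2 * p) ∧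
      (∀ w, IsEmpty (completeBipartiteGraph (Fin 1) (Fin (p + 1)) ↪g gr (f w))) ∧
      ∀ w, w ∈ L ↔ ∃ c : {v : ℕ // v ∈ (f w).1} → Fin (p + 2), IsStar (gr (f w)) c :=
  ⟨inNP_restricted (2 * p) (p + 1) (p + 2),
    npHard_of_hardPr (hardPr_star p hp) (fun _ h => ⟨fun g => ⟨h.1, h.2, g⟩, fun g => g.2.2⟩),
    (star_main p hp).2⟩

end Pool.Agent.Results.MP_709f11_lc.StarColouringNPComplete
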